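import Pool.Agent.H761J.TdUnits

set_option autoImplicit false

/-!
Turing determinacy implies that every homomorphism from the group of invertible operators of `ℓ²`
which is trivial on the compact perturbations of the identity, to any group whose underlying set
injects into the reals, has open kernel, so it is trivial on the connected component of the
identity. Stated as an explicit reduction to the determinacy of Turing invariant sets.

The proof: for every bounded operator `a` there is a sequence of blocks of coordinates such that `a`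
is block tridiagonal up to a compact operator, so it commutes modulo the compact operators with the
multiplications by all slowly oscillating sequences, blown up on the blocks. The exponentials of
these multiples of `a` give an additive map on the slowly oscillating sequences modulo null ones.
-/

namespace Pool.Agent.Results.MP_917879_lc.CalkinUnits

open Pool.Agent.H685R3 Pool.Agent.TH774.TD Filter Topology

/-- `x` and `y` have the same Turing degree (Mathlib's Turing reducibility, for characteristic
functions). -/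
def SameDegree (x y : ℕ → Bool) : Prop :=
  TuringReducible (charFn x) (charFn y) ∧ TuringReducible (charFn y) (charFn x)

/-- The sequence `u` is bounded and `u (n + 1) - u n` tends to zero. -/
def Slow (u : ℕ → ℝ) : Prop :=
  (∃ C : ℝ, ∀ n, |u n| ≤ C) ∧ Tendsto (fun n => u (n + 1) - u n) atTop (𝓝 0)

/-- The Hilbert space `ℓ²` over the real or complex numbers. -/
def L2 (𝕜 : Type*) [RCLike 𝕜] : Type _ := lp (fun _ : ℕ => 𝕜) 2

/-- The norm of `ℓ²`. -/
noncomputable instance normedL2 (𝕜 : Type*) [RCLike 𝕜] : NormedAddCommGroup (L2 𝕜) :=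
  (inferInstance : NormedAddCommGroup (lp (fun _ : ℕ => 𝕜) 2))

/-- The linear structure of `ℓ²`. -/
noncomputable instance spaceL2 (𝕜 : Type*) [RCLike 𝕜] : NormedSpace 𝕜 (L2 𝕜) :=
  (inferInstance : NormedSpace 𝕜 (lp (fun _ : ℕ => 𝕜) 2))

/-- The bounded operators of `ℓ²`. -/
def Op (𝕜 : Type*) [RCLike 𝕜] : Type _ := L2 𝕜 →L[𝕜] L2 𝕜

/-- The ring structure and the norm of the bounded operators of `ℓ²`. -/
noncomputable instance ringOp (𝕜 : Type*) [RCLike 𝕜] : NormedRing (Op 𝕜) :=
  (inferInstance : NormedRing (L2 𝕜 →L[𝕜] L2 𝕜))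

/-- The group of invertible bounded operators of `ℓ²`. -/
def InvOp (𝕜 : Type*) [RCLike 𝕜] : Type _ := (Op 𝕜)ˣ

/-- The group structure of the invertible operators. -/
noncomputable instance groupInvOp (𝕜 : Type*) [RCLike 𝕜] : Group (InvOp 𝕜) :=
  (inferInstance : Group (Op 𝕜)ˣ)

/-- The norm topology of the invertible operators. -/
noncomputable instance topInvOp (𝕜 : Type*) [RCLike 𝕜] : TopologicalSpace (InvOp 𝕜) :=
  (inferInstance : TopologicalSpace (Op 𝕜)ˣ)

section

variable {𝕜 : Type*} [RCLike 𝕜] {G : Type*} [Group G]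

/-- The `i`-th coordinate. -/
def coord (f : L2 𝕜) (i : ℕ) : 𝕜 := (f : lp (fun _ : ℕ => 𝕜) 2).1 i

/-- The operator as a function. -/
noncomputable def fn (W : Op 𝕜) (f : L2 𝕜) : L2 𝕜 := (show L2 𝕜 →L[𝕜] L2 𝕜 from W) f

/-- The invertible operator as an operator. -/
def val (g : InvOp 𝕜) : Op 𝕜 := Units.val (g : (Op 𝕜)ˣ)

/-- The operator `W` multiplies the `i`-th coordinate by the real number `w i`, for all `i`. -/
def Multiplies (W : Op 𝕜) (w : ℕ → ℝ) : Prop := ∀ f i, coord (fn W f) i = (w i : 𝕜) * coord f i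

/-- For every operator `a` the function `β a` tends to infinity, and `E a x` is the exponential of
`W * a`, where `W` multiplies the `i`-th coordinate by `ρ x (β a i)`. -/
def Twist (ρ : (ℕ → Bool) → ℕ → ℝ) (β : Op 𝕜 → ℕ → ℕ) (E : Op 𝕜 → (ℕ → Bool) → InvOp 𝕜) : Prop :=
  ∀ a, Tendsto (β a) atTop atTop ∧ ∀ x, ∃ W : Op 𝕜,
    Multiplies W (fun i => ρ x (β a i)) ∧ val (E a x) = NormedSpace.exp (W * a)

/-- The homomorphism `φ` is trivial on all invertible operators `g` with `g - 1` compact. -/
def TrivialOnCompact (φ : InvOp 𝕜 →* G) : Prop := ∀ g, IsCompactOperator (fn (val g - 1)) → φ g = 1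

/-- All the sets `{x | κ (φ (E a x)) i = true}` belong to the class `P`. -/
def AllSets (P : Set (ℕ → Bool) → Prop) (E : Op 𝕜 → (ℕ → Bool) → InvOp 𝕜) (κ : G → ℕ → Bool)
    (φ : InvOp 𝕜 →* G) : Prop := ∀ a i, P {x | κ (φ (E a x)) i = true}

/-- The homomorphism `φ` is trivial on all exponentials, its kernel is open, and it is trivial on
the connected component of the identity. -/
def Tame (φ : InvOp 𝕜 →* G) : Prop :=
  (∀ a g, val g = NormedSpace.exp a → φ g = 1) ∧ IsOpen {g | φ g = 1} ∧
    ∀ g ∈ connectedComponent (1 : InvOp 𝕜), φ g = 1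

end

/-- There is a Borel map `ρ` from the Cantor space to the sequences in the unit interval, with
slowly oscillating values, sending Turing equivalent reals to sequences with difference tending to
zero, and there are invertible operators `E a x` of `ℓ²`, the exponentials of the products of `a`
with the multiplications by `ρ x (β a i)`, such that for every homomorphism `φ` from the group of
invertible operators of `ℓ²` to a group `G` (with an injection `κ` of `G` into the Cantor space)
which is trivial on all `g` with `g - 1` compact, the sets `{x | κ (φ (E a x)) i = true}` are Turing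
invariant, and if all of them are determined, then `φ` is trivial on all exponentials, its kernel is
open, and it is trivial on the connected component of the identity. -/
theorem result :
    ∃ ρ : (ℕ → Bool) → ℕ → ℝ, Measurable ρ ∧ (∀ x n, ρ x n ∈ Set.Icc (0 : ℝ) 1) ∧
      (∀ x, Slow (ρ x)) ∧
      (∀ x y, SameDegree x y → Tendsto (fun n => ρ x n - ρ y n) atTop (𝓝 0)) ∧
      ∀ (𝕜 : Type*) [RCLike 𝕜], ∃ (β : Op 𝕜 → ℕ → ℕ) (E : Op 𝕜 → (ℕ → Bool) → InvOp 𝕜),
        Twist ρ β E ∧
        ∀ (G : Type*) [Group G] (κ : G → ℕ → Bool), Function.Injective κ →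
          ∀ φ : InvOp 𝕜 →* G, TrivialOnCompact φ →
            AllSets TuringInvariant E κ φ ∧ (AllSets Determined E κ φ → Tame φ) := by
  refine ⟨rho, measurable_rho, fun x n => wv_mem _, Pool.Agent.H761J.TdSlow.slow_rho,
    fun x y h => rho_close h.1 h.2, fun 𝕜 _ =>
      ⟨Pool.Agent.H761J.TdUnits.blk (𝕜 := 𝕜),
        fun a x => Pool.Agent.H761J.TdUnits.tw (𝕜 := 𝕜) a (rho x),
        fun a => ⟨Pool.Agent.H761J.TdUnits.blk_tendsto (𝕜 := 𝕜) a, fun x =>
          ⟨Pool.Agent.H761J.TdComm.M 𝕜 (rho x ∘ Pool.Agent.H761J.TdUnits.blk (𝕜 := 𝕜) a),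
            fun f i => ?_, rfl⟩⟩, fun G _ κ hκ φ hφ => ?_⟩⟩
  · exact Pool.Agent.H761J.TdComm.M_apply (Pool.Agent.H761J.TdTri.Bd.comp
      (Pool.Agent.H761J.TdSlow.slow_rho x).1 _) f i
  · have h := fun a : Op 𝕜 => Pool.Agent.H761J.TdUnits.main (𝕜 := 𝕜) a hκ (φ := φ) hφ
    refine ⟨fun a => (h a).1, fun hD => ?_⟩
    have h1 : ∀ a, φ (Pool.Agent.H761J.TdUnits.expU (𝕜 := 𝕜) a) = 1 := fun a => (h a).2 (hD a)
    refine ⟨fun a g hg => ?_, Pool.Agent.H761J.TdUnits.open_ker (𝕜 := 𝕜) (φ := φ) h1,
      Pool.Agent.H761J.TdUnits.comp_one (𝕜 := 𝕜) (φ := φ) h1⟩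
    rw [← h1 a]
    exact congrArg φ (Units.ext hg)

end Pool.Agent.Results.MP_917879_lc.CalkinUnits
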