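import Pool.Agent.Helper246.TDM.Core
import Pool.Agent.Helper246.TDM.Dens

set_option autoImplicit false

/-!
Turing determinacy implies that every finitely additive measure with values in a group of size at
most the continuum vanishes identically, if it lives on a Boolean algebra with a lattice homomorphism
from the sequences in the unit interval which does not distinguish, up to elements of measure zero,
sequences with difference tending to zero. This applies to the subsets of the natural numbers and
measures vanishing on an Erdős-Ulam ideal, for instance on the sets of asymptotic density zero.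
Stated as an explicit reduction to the determinacy of Turing invariant sets.
-/

namespace Pool.Agent.Results.MP_917879_lc.GroupValuedMeasures

open Pool.Agent.H685R3 Pool.Agent.Helper246.TDM Filter Topology

/-- `x` and `y` have the same Turing degree (Mathlib's Turing reducibility, for characteristic
functions). -/
def SameDegree (x y : ℕ → Bool) : Prop :=
  TuringReducible (charFn x) (charFn y) ∧ TuringReducible (charFn y) (charFn x)

/-- `φ` is a finitely additive measure on the Boolean algebra `B` with values in the group `H`. -/
def Additive {B H : Type*} [BooleanAlgebra B] [AddGroup H] (φ : B → H) : Prop :=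
  ∀ a b, Disjoint a b → φ (a ⊔ b) = φ a + φ b

/-- The downward closed set `N` contains `S 0`, the complement of `S 1`, and `S a \ S b` whenever
`a n - b n → 0`. -/
def Slices {B : Type*} [BooleanAlgebra B] (N : Set B) (S : LatticeHom (ℕ → unitInterval) B) : Prop :=
  (∀ a b, a ≤ b → b ∈ N → a ∈ N) ∧ S ⊥ ∈ N ∧ (S ⊤)ᶜ ∈ N ∧
    ∀ a b : ℕ → unitInterval, Tendsto (fun n => (a n : ℝ) - b n) atTop (𝓝 0) → S a \ S b ∈ N

/-- The Erdős-Ulam ideal given by blocks `I n` and weights `w`: the mass of `D` in `I n` tends to
zero. -/
def Thin (I : ℕ → Finset ℕ) (w : ℕ → ℝ) : Set (Set ℕ) :=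
  {D | Tendsto (fun n => ∑ k ∈ I n, D.indicator w k) atTop (𝓝 0)}

/-- The sets of asymptotic density zero. -/
def DensityZero : Set (Set ℕ) :=
  {D | Tendsto (fun n : ℕ => ((D ∩ Set.Iio n).ncard : ℝ) / n) atTop (𝓝 0)}

theorem slices_thin (I : ℕ → Finset ℕ) (w : ℕ → ℝ) (hd : ∀ m n, m ≠ n → Disjoint (I m) (I n))
    (h0 : ∀ k, 0 ≤ w k) (h1 : ∀ n, ∑ k ∈ I n, w k = 1) (hw : Tendsto w atTop (𝓝 0)) :
    ∃ S, Slices (Thin I w) S := by
  refine ⟨⟨⟨fun a => Init I w fun n => (a n : ℝ), ?_⟩, ?_⟩, fun a b hab hb => negl_mono h0 hb hab,
    negl_init_zero hd h0, negl_compl_init_one h0 h1, fun a b hab => negl_diff hd h0 hw hab⟩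
  · intro a b
    have h := init_union (I := I) (w := w) (fun n => (a n : ℝ)) fun n => (b n : ℝ)
    have e : (fun n => (((a ⊔ b) n : unitInterval) : ℝ)) = fun n => max (a n : ℝ) (b n) := by
      funext n
      rfl
    change Init I w (fun n => (((a ⊔ b) n : unitInterval) : ℝ)) = _
    rw [e]
    exact h.symm
  · intro a b
    have h := init_inter (I := I) (w := w) hd (fun n => (a n : ℝ)) fun n => (b n : ℝ)
    have e : (fun n => (((a ⊓ b) n : unitInterval) : ℝ)) = fun n => min (a n : ℝ) (b n) := by
      funext n
      rfl
    change Init I w (fun n => (((a ⊓ b) n : unitInterval) : ℝ)) = _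
    rw [e]
    exact h.symm

theorem slices_densityZero : ∃ S, Slices DensityZero S := by
  obtain ⟨S, -, h1, h2, h3⟩ := slices_thin dyI dyw dyI_disj dyw_nonneg dyI_total dyw_tendsto
  refine ⟨S, fun a b hab hb => ?_, densityZero_of_negl h1, densityZero_of_negl h2,
    fun a b hab => densityZero_of_negl (h3 a b hab)⟩
  refine squeeze_zero (fun n => by positivity) (fun n => ?_) hb
  refine div_le_div_of_nonneg_right ?_ (Nat.cast_nonneg n)
  refine (Nat.cast_le (α := ℝ)).2 (Set.ncard_le_ncard (Set.inter_subset_inter_left _ hab) ?_)
  exact (Set.finite_Iio n).subset Set.inter_subset_right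

/-- There is a Borel map `ρ` from the Cantor space to the sequences in the unit interval, sending
reals of the same Turing degree to sequences with difference tending to zero, such that the
following holds. Let `B` be a Boolean algebra, `N` a downward closed subset of `B`, and `S` a lattice
homomorphism from the sequences in the unit interval to `B` such that `S 0`, the complement of `S 1`,
and `S a \ S b` for all `a`, `b` with `a n - b n → 0` belong to `N`. Let `H` be a group (written
additively, not necessarily commutative) with an injection `κ` into the Cantor space and let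
`φ : B → H` be finitely additive and vanish on `N`. Then the sets `{x | κ (φ (S (ρ x) ⊓ v)) i = true}`
(`v` in `B`, `i` a natural number) are Turing invariant, and if all of them are determined, then
`φ = 0`.

Such an `S` exists for the Boolean algebra of all sets of natural numbers when `N` is an Erdős-Ulam
ideal (given by pairwise disjoint finite blocks and weights of sum `1` on every block which tend to
zero), and when `N` is the ideal of the sets of asymptotic density zero. -/
theorem result :
    (∃ ρ : (ℕ → Bool) → ℕ → unitInterval, Measurable ρ ∧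
      (∀ x y, SameDegree x y → Tendsto (fun n => (ρ x n : ℝ) - ρ y n) atTop (𝓝 0)) ∧
      ∀ (B : Type*) [BooleanAlgebra B] (N : Set B) (S : LatticeHom (ℕ → unitInterval) B),
        Slices N S →
        ∀ (H : Type*) [AddGroup H] (κ : H → ℕ → Bool), Function.Injective κ →
        ∀ φ : B → H, Additive φ → (∀ d ∈ N, φ d = 0) →
        (∀ v i, TuringInvariant {x | κ (φ (S (ρ x) ⊓ v)) i = true}) ∧
        ((∀ v i, Determined {x | κ (φ (S (ρ x) ⊓ v)) i = true}) → ∀ v, φ v = 0)) ∧
    (∀ (I : ℕ → Finset ℕ) (w : ℕ → ℝ), (∀ m n, m ≠ n → Disjoint (I m) (I n)) →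
      (∀ k, 0 ≤ w k) → (∀ n, ∑ k ∈ I n, w k = 1) → Tendsto w atTop (𝓝 0) →
      ∃ S, Slices (Thin I w) S) ∧
    ∃ S, Slices DensityZero S := by
  refine ⟨⟨rhoI, measurable_rhoI, fun x y h => Pool.Agent.TH774.TD.rho_close h.1 h.2, ?_⟩,
    slices_thin, slices_densityZero⟩
  intro B _ N S ⟨hN, h0, h1, hS⟩ H _ κ hκ φ hadd hnull
  exact gen (fun b => b ∈ N) hN S (map_sup S) (map_inf S) h0 h1 hS κ hκ φ hadd hnull

end Pool.Agent.Results.MP_917879_lc.GroupValuedMeasures
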