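import Pool.Agent.Helper246.TDR.Core

set_option autoImplicit false

/-!
Turing determinacy implies a partition theorem with continuum many colours: for every colouring, by
reals, of the sequences in the unit interval modulo null sequences there are pairwise disjoint
finitely supported bumps, of height tending to one, such that all sums of infinitely many of these
bumps have the same colour. Stated as an explicit reduction to the determinacy of Turing invariant
sets.
-/

namespace Pool.Agent.Results.MP_917879_lc.MonochromaticInfiniteUnions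

open Pool.Agent.Helper227 Pool.Agent.H685R3 Pool.Agent.TH774.TD
open Pool.Agent.Helper246.TDM Pool.Agent.Helper246.TDR
open Filter Topology

/-- `x` and `y` have the same Turing degree (Mathlib's Turing reducibility, for characteristic
functions). -/
def SameDegree (x y : ℕ → Bool) : Prop :=
  TuringReducible (charFn x) (charFn y) ∧ TuringReducible (charFn y) (charFn x)

open Classical in
/-- The sequence `u` restricted to the `m` with `h m ∈ A` (and zero elsewhere). -/
noncomputable def restrictTo (u : ℕ → unitInterval) (h : ℕ → ℕ) (A : Set ℕ) : ℕ → unitInterval :=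
  fun m => if h m ∈ A then u m else 0

theorem peaks {s : ℕ → ℝ} (hs : Tendsto s atTop atTop)
    (hd : Tendsto (fun m => s (m + 1) - s m) atTop (𝓝 0)) (ε : ℝ) (hε : 0 < ε) :
    ∀ᶠ n : ℕ in atTop, ∃ m, ⌊s m⌋₊ = n ∧ 1 - ε ≤ (wvI (s m) : ℝ) := by
  set δ : ℝ := min (ε / 4) (1 / 4) with hδ
  have hδ0 : 0 < δ := lt_min (by positivity) (by norm_num)
  obtain ⟨M, hM⟩ := (Metric.tendsto_atTop.1 hd) δ hδ0
  obtain ⟨R, hR⟩ : ∃ R : ℕ, ∀ m ≤ M, s m < R := by
    obtain ⟨R, hR⟩ := exists_nat_gt (∑ m ∈ Finset.range (M + 1), |s m|)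
    refine ⟨R, fun m hm => ?_⟩
    have h1 : |s m| ≤ ∑ m ∈ Finset.range (M + 1), |s m| :=
      Finset.single_le_sum (f := fun m => |s m|) (fun _ _ => abs_nonneg _)
        (Finset.mem_range.2 (by omega))
    have h2 := le_abs_self (s m)
    linarith
  filter_upwards [eventually_ge_atTop R] with n hn
  have hex : ∃ m, (n : ℝ) + 1 / 2 ≤ s m := (hs.eventually_ge_atTop _).exists
  classical
  set m := Nat.find hex with hm
  have h1 : (n : ℝ) + 1 / 2 ≤ s m := Nat.find_spec hex
  have hnR : (R : ℝ) ≤ n := Nat.cast_le.2 hn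
  have h2 : M < m := by
    by_contra hcon
    have := hR m (not_lt.1 hcon)
    linarith
  obtain ⟨p, hp⟩ : ∃ p, m = p + 1 := ⟨m - 1, by omega⟩
  have h3 : s p < (n : ℝ) + 1 / 2 := by
    have := Nat.find_min hex (m := p) (by omega)
    linarith [not_le.1 this]
  have h4 := hM p (by omega)
  rw [Real.dist_eq, sub_zero, ← hp] at h4
  have h5 := (le_abs_self _).trans_lt h4
  have h6 : δ ≤ 1 / 4 := min_le_right _ _
  have h7 : δ ≤ ε / 4 := min_le_left _ _
  refine ⟨m, (Nat.floor_eq_iff (by have : (0:ℝ) ≤ n := Nat.cast_nonneg n; linarith)).2 ⟨by linarith, by linarith⟩, ?_⟩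
  have h8 := wv_sub_le ((n : ℝ) + 1 / 2) (s m)
  have h9 : wv ((n : ℝ) + 1 / 2) = 1 := by
    rw [wv_add_nat, wv, mul_one_div, Real.sin_pi_div_two, one_pow]
  rw [h9, abs_sub_comm ((n : ℝ) + 1 / 2), abs_of_nonneg (by linarith : (0 : ℝ) ≤ s m - (n + 1 / 2))] at h8
  have h10 := (le_abs_self _).trans h8
  rw [wvI_coe]
  linarith

/-- There is a Borel map `ρ` from the Cantor space to the sequences in the unit interval, sending
reals of the same Turing degree to sequences with difference tending to zero, such that for every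
map `f` from the sequences in the unit interval to the Cantor space, with `f a = f b` whenever
`a n - b n → 0`, the sets `{x | f (ρ x) i = true}` are Turing invariant, and if all of them are
determined, then the following holds: there are a map `h : ℕ → ℕ` tending to infinity, a sequence
`u` in the unit interval and a colour `c` such that for every `ε > 0`, for almost all `n` some `m`
with `h m = n` satisfies `u m ≥ 1 - ε`, and for every infinite set `A` the restriction of `u` to
`{m | h m ∈ A}` has colour `c`. -/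
theorem result :
    ∃ ρ : (ℕ → Bool) → ℕ → unitInterval, Measurable ρ ∧
      (∀ x y, SameDegree x y → Tendsto (fun n => (ρ x n : ℝ) - ρ y n) atTop (𝓝 0)) ∧
      ∀ f : (ℕ → unitInterval) → ℕ → Bool,
        (∀ a b : ℕ → unitInterval, Tendsto (fun n => (a n : ℝ) - b n) atTop (𝓝 0) → f a = f b) →
        (∀ i, TuringInvariant {x | f (ρ x) i = true}) ∧
        ((∀ i, Determined {x | f (ρ x) i = true}) →
          ∃ (h : ℕ → ℕ) (u : ℕ → unitInterval) (c : ℕ → Bool), Tendsto h atTop atTop ∧
            (∀ ε : ℝ, 0 < ε → ∀ᶠ n in atTop, ∃ m, h m = n ∧ 1 - ε ≤ (u m : ℝ)) ∧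
            ∀ A : Set ℕ, A.Infinite → f (restrictTo u h A) = c) := by
  refine ⟨rhoI, measurable_rhoI, fun x y h => rho_close h.1 h.2, fun f hf => ?_⟩
  have hinv : ∀ x y, TLe x y → TLe y x → f (rhoI x) = f (rhoI y) :=
    fun x y h1 h2 => hf _ _ (rho_close h1 h2)
  refine ⟨fun i x y h1 h2 hx => ?_, fun hD => ?_⟩
  · change f _ i = true at hx
    change f _ i = true
    rw [← hinv x y h1 h2]
    exact hx
  obtain ⟨z, hz⟩ := const_on_cone (S := fun i => {x | f (rhoI x) i = true})
    (fun i x y h1 h2 hx => by
      change f _ i = true at hx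
      change f _ i = true
      rw [← hinv x y h1 h2]
      exact hx) hD
  have hconst : ∀ y, TLe z y → f (rhoI y) = f (rhoI z) := by
    intro y hy
    funext i
    rcases hz i with h | h
    · have h1 : f (rhoI y) i = true := h y hy
      have h2 : f (rhoI z) i = true := h z (TLe.refl z)
      rw [h1, h2]
    · have h1 : ¬ f (rhoI y) i = true := h y hy
      have h2 : ¬ f (rhoI z) i = true := h z (TLe.refl z)
      rw [Bool.not_eq_true] at h1 h2
      rw [h1, h2]
  obtain ⟨s, hs0, hs, hwalk⟩ := walk_sq z
  have hslow : Tendsto (fun m => s (m + 1) - s m) atTop (𝓝 0) := by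
    obtain ⟨y, -, e⟩ := hwalk _ nice_id
    have e1 := (tendsto_add_atTop_iff_nat 1).2 e
    have e2 := ((sq_slow y).sub e1).add e
    simp only [sub_zero, add_zero] at e2
    refine e2.congr fun m => ?_
    ring
  refine ⟨fun m => ⌊s m⌋₊, fun m => wvI (s m), f (rhoI z), tendsto_nat_floor_atTop.comp hs,
    peaks hs hslow, fun A hA => ?_⟩
  obtain ⟨y, hy, e⟩ := hwalk _ (nice_th hA)
  rw [← hconst y hy]
  refine hf _ _ ?_
  have h1 := (rho_close_of e).neg
  simp only [neg_zero] at h1
  refine h1.congr fun m => ?_
  have h2 := wv_th A (s m)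
  have h3 : ((restrictTo (fun m => wvI (s m)) (fun m => ⌊s m⌋₊) A m : unitInterval) : ℝ) =
      wv (th A (s m)) := by
    rw [h2, restrictTo]
    split_ifs <;> rfl
  rw [h3, rhoI_coe]
  unfold rho
  ring

end Pool.Agent.Results.MP_917879_lc.MonochromaticInfiniteUnions
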