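import Pool.Agent.H554T.Main

set_option autoImplicit false

/-!
Turing determinacy and games with arbitrary payoff sets: a zero-one law for the turn order. For a
payoff set `A` (a set of sequences over any set `X` of moves) and a turn order `Z` (a sequence of
bits which says who moves at which place) consider the game in which the owner of the places with
`Z n = true` wants the play to be in `A`, and the other player wants it to be outside. Turing
determinacy implies that locally, on a comeager set of turn orders given by an interval partition,
either the first player always wins, or the second player always wins, or all these games are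
undetermined. Stated as an explicit reduction to the determinacy of Turing invariant sets.
-/

namespace Pool.Agent.Results.MP_917879_lc.TurnOrders

open Pool.Agent.H685R3 Filter

/-- `x` and `y` have the same Turing degree (Mathlib's Turing reducibility, for characteristic
functions). -/
def SameDegree (x y : ℕ → Bool) : Prop :=
  TuringReducible (charFn x) (charFn y) ∧ TuringReducible (charFn y) (charFn x)

/-- The set of all `x` such that for some `x'` of the same Turing degree the set `V` contains
infinitely many members of the sequence `Ψ x'`. -/
def Saturation (V : Set (ℕ → Bool)) (Ψ : (ℕ → Bool) → ℕ → ℕ → Bool) : Set (ℕ → Bool) :=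
  {x | ∃ x', SameDegree x' x ∧ ∃ᶠ n in atTop, Ψ x' n ∈ V}

/-- The player who moves at the places `n` with `Z n = b` can force the play into `A`: there is a
strategy `ρ` (a move for every finite sequence of moves) all of whose plays are in `A`. -/
def Forces {X : Type*} (b : Bool) (Z : ℕ → Bool) (A : Set (ℕ → X)) : Prop :=
  ∃ ρ : List X → X, ∀ x : ℕ → X, (∀ n, Z n = b → x n = ρ ((List.range n).map x)) → x ∈ A

/-- `Z` takes the value `v` on the whole interval `[s k, s (k + 1))`, for infinitely many `k`. -/
def OftenFull (v : Bool) (s : ℕ → ℕ) (Z : ℕ → Bool) : Prop :=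
  ∃ᶠ k in atTop, ∀ m, s k ≤ m → m < s (k + 1) → Z m = v

/-- `Z` begins with the finite sequence `σ`. -/
def Begins (σ : List Bool) (Z : ℕ → Bool) : Prop := (List.range σ.length).map Z = σ

/-- There are Borel maps `Φ σ` (one for every finite binary sequence `σ`) from the Cantor space to
sequences of points of the Cantor space such that for every set `X` of moves and every payoff set
`A` whatsoever, the saturations of the set of turn orders for which the first player wins, and of
the set of turn orders for which the second player does not win, are Turing invariant; and if all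
of them are determined, then every `σ` has an extension `σ ++ τ` for which there is a partition of
the places into finite intervals such that one of the following holds for the turn orders `Z` that
begin with `σ ++ τ`: the first player wins whenever `Z` gives infinitely many whole intervals to
this player; the second player wins whenever `Z` gives infinitely many whole intervals to that
player; or nobody wins whenever `Z` gives infinitely many whole intervals to each player. -/
theorem result :
    ∃ Φ : List Bool → (ℕ → Bool) → ℕ → ℕ → Bool, (∀ σ, Measurable (Φ σ)) ∧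
      ∀ (X : Type*) (A : Set (ℕ → X)),
        (∀ σ, TuringInvariant (Saturation {Z | Forces true Z A} (Φ σ)) ∧
          TuringInvariant (Saturation {Z | ¬ Forces false Z Aᶜ} (Φ σ))) ∧
        ((∀ σ, Determined (Saturation {Z | Forces true Z A} (Φ σ)) ∧
            Determined (Saturation {Z | ¬ Forces false Z Aᶜ} (Φ σ))) →
          ∀ σ : List Bool, ∃ (τ : List Bool) (s : ℕ → ℕ), StrictMono s ∧
            ((∀ Z, Begins (σ ++ τ) Z → OftenFull true s Z → Forces true Z A) ∨
              (∀ Z, Begins (σ ++ τ) Z → OftenFull false s Z → Forces false Z Aᶜ) ∨
              (∀ Z, Begins (σ ++ τ) Z → OftenFull true s Z → OftenFull false s Z →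
                ¬ Forces true Z A ∧ ¬ Forces false Z Aᶜ))) := by
  refine ⟨Pool.Agent.W885.TD.cc, Pool.Agent.W885.TD.measurable_cc, fun X A => ?_⟩
  have key : ∀ (V : Set (ℕ → Bool)) σ, Saturation V (Pool.Agent.W885.TD.cc σ) =
      Pool.Agent.W885.TD.sat V (Pool.Agent.W885.TD.cc σ) := by
    intro V σ
    ext x
    exact ⟨fun ⟨x', h, h'⟩ => ⟨x', h.1, h.2, h'⟩, fun ⟨x', h1, h2, h'⟩ => ⟨x', ⟨h1, h2⟩, h'⟩⟩
  refine ⟨fun σ => ⟨?_, ?_⟩, fun h σ => ?_⟩
  · rw [key]
    exact Pool.Agent.W885.TD.sat_invariant _ _
  · rw [key]
    exact Pool.Agent.W885.TD.sat_invariant _ _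
  · have h1 : ∀ σ, Determined (Pool.Agent.W885.TD.sat {Z | Pool.Agent.H554T.Wins true Z A}
        (Pool.Agent.W885.TD.cc σ)) := fun σ => by
      have := (h σ).1
      rwa [key] at this
    have h2 : ∀ σ, Determined (Pool.Agent.W885.TD.sat {Z | ¬ Pool.Agent.H554T.Wins false Z Aᶜ}
        (Pool.Agent.W885.TD.cc σ)) := fun σ => by
      have := (h σ).2
      rwa [key] at this
    obtain ⟨τ, s, hs, h3⟩ := Pool.Agent.H554T.main A h1 h2 σ
    refine ⟨τ, s, hs, ?_⟩
    have hc : ∀ Z, Begins (σ ++ τ) Z → Z ∈ Pool.Agent.Helper227.cyl (σ ++ τ) := fun Z hZ =>
      Pool.Agent.Helper227.mem_cyl_iff.2 hZ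
    rcases h3 with h3 | h3 | h3
    · exact Or.inl fun Z hZ hf => h3 Z (hc Z hZ) hf
    · exact Or.inr (Or.inl fun Z hZ hf => h3 Z (hc Z hZ) hf)
    · exact Or.inr (Or.inr fun Z hZ hf hf' => h3 Z (hc Z hZ) hf hf')

end Pool.Agent.Results.MP_917879_lc.TurnOrders
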